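import Pool.Agent.H319R3.LV.LV10

/-!
The level of distribution of the integers with finite (and short) total stopping time.

The positive integers `n` whose Collatz trajectory reaches 1, even within
`(3 / log (4/3) + η) log n` steps, are uniformly distributed in the residue classes modulo
`2^j 3^m`, for all moduli `2^j 3^m ≤ N^c` with some `c > 0`; in particular every residue class modulo
`2^j 3^m` contains such an integer which is at most a fixed power of the modulus.
-/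

set_option autoImplicit false
set_option linter.unusedVariables false

namespace Pool.Agent.Results.MP_e43fce_nt.LevelOfDistribution

open Filter Topology

/-- the Collatz function -/
def C (n : ℕ) : ℕ := if n % 2 = 0 then n / 2 else 3 * n + 1

/-- `k` is the total stopping time `l(n)` -/
def IsTotalStoppingTime (n k : ℕ) : Prop := C^[k] n = 1 ∧ ∀ i < k, C^[i] n ≠ 1

/-- the number of `1 ≤ n ≤ N`, `n ≡ a` mod `q`, with the property `P` -/
noncomputable def count (P : ℕ → Prop) (N q a : ℕ) : ℕ :=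
  {n : ℕ | 1 ≤ n ∧ n ≤ N ∧ n ≡ a [MOD q] ∧ P n}.ncard

/-- `P` holds on a set of natural density `δ` -/
def HasDensity (P : ℕ → Prop) (δ : ℝ) : Prop :=
  Tendsto (fun N : ℕ => ({n : ℕ | 1 ≤ n ∧ n ≤ N ∧ P n}.ncard : ℝ) / N) atTop (𝓝 δ)

/-- `l(n)` is finite and at most `K log n` -/
def Short (K : ℝ) (n : ℕ) : Prop := ∃ k : ℕ, IsTotalStoppingTime n k ∧ (k : ℝ) ≤ K * Real.log n

/-! ### proofs -/

open Pool.Agent.H319R3.LV Pool.Agent.H499R2.ND

theorem reach_iff (n : ℕ) (hn : 1 ≤ n) : (∃ k, C^[k] n = 1) ↔ ∃ k, C^[k] (Tn n) = 1 := by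
  by_cases h : n % 2 = 0
  · have h1 : Tn n = C n := by simp only [Tn]; unfold C; rw [if_pos h, if_pos h]
    rw [h1]
    constructor
    · rintro ⟨k, hk⟩
      cases k with
      | zero => exfalso; rw [Function.iterate_zero, id] at hk; omega
      | succ k => exact ⟨k, by rw [← Function.iterate_succ_apply]; exact hk⟩
    · rintro ⟨k, hk⟩
      exact ⟨k + 1, by rw [Function.iterate_succ_apply]; exact hk⟩
  · have h1 : Tn n = C (C n) := by
      simp only [Tn]; unfold C
      rw [if_neg h, if_neg h, if_pos (by omega)]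
    rw [h1]
    constructor
    · rintro ⟨k, hk⟩
      match k with
      | 0 =>
        rw [Function.iterate_zero, id] at hk
        subst hk
        exact ⟨1, by decide⟩
      | 1 =>
        exfalso
        rw [Function.iterate_one] at hk
        unfold C at hk
        rw [if_neg h] at hk; omega
      | k + 2 => exact ⟨k, by rw [← Function.iterate_succ_apply, ← Function.iterate_succ_apply]; exact hk⟩
    · rintro ⟨k, hk⟩
      exact ⟨k + 2, by rw [Function.iterate_succ_apply, Function.iterate_succ_apply]; exact hk⟩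

theorem reach_T (k : ℕ) : ∀ n : ℕ, 1 ≤ n → C^[k] n = 1 → ∃ i : ℕ, Tn^[i] n = 1 := by
  induction k using Nat.strong_induction_on with
  | _ k ih =>
    intro n hn hk
    by_cases hn1 : n = 1
    · exact ⟨0, by rw [Function.iterate_zero, id, hn1]⟩
    by_cases h : n % 2 = 0
    · have h1 : Tn n = C n := by simp only [Tn]; unfold C; rw [if_pos h, if_pos h]
      cases k with
      | zero => exact absurd hk hn1
      | succ k =>
        rw [Function.iterate_succ_apply, ← h1] at hk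
        have h2 : 1 ≤ Tn n := by simp only [Tn]; rw [if_pos h]; omega
        obtain ⟨i, hi⟩ := ih k (by omega) (Tn n) h2 hk
        exact ⟨i + 1, by rw [Function.iterate_succ_apply]; exact hi⟩
    · have h1 : Tn n = C (C n) := by
        simp only [Tn]; unfold C
        rw [if_neg h, if_neg h, if_pos (by omega)]
      match k with
      | 0 => exact absurd hk hn1
      | 1 =>
        exfalso
        rw [Function.iterate_one] at hk
        unfold C at hk
        rw [if_neg h] at hk; omega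
      | k + 2 =>
        rw [Function.iterate_succ_apply, Function.iterate_succ_apply, ← h1] at hk
        have h2 : 1 ≤ Tn n := by simp only [Tn]; rw [if_neg h]; omega
        obtain ⟨i, hi⟩ := ih k (by omega) (Tn n) h2 hk
        exact ⟨i + 1, by rw [Function.iterate_succ_apply]; exact hi⟩

/-- time and size -/
theorem steps (n i : ℕ) : ∃ o : ℕ, C^[i + o] n = Tn^[i] n ∧ 3 ^ o * n ≤ 2 ^ i * Tn^[i] n := by
  induction i with
  | zero => exact ⟨0, rfl, by simp⟩
  | succ i ih =>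
    obtain ⟨o, h1, h2⟩ := ih
    set y := Tn^[i] n with hy
    by_cases h : y % 2 = 0
    · refine ⟨o, ?_, ?_⟩
      · rw [show i + 1 + o = (i + o) + 1 by ring, Function.iterate_succ_apply', h1,
          Function.iterate_succ_apply', ← hy]
        simp only [Tn]; unfold C; rw [if_pos h, if_pos h]
      · rw [Function.iterate_succ_apply', ← hy]
        have : Tn y * 2 = y := by simp only [Tn]; rw [if_pos h]; omega
        calc 3 ^ o * n ≤ 2 ^ i * y := h2
          _ = 2 ^ (i + 1) * Tn y := by rw [← this, pow_succ]; ring_nf; rw [this]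
    · refine ⟨o + 1, ?_, ?_⟩
      · rw [show i + 1 + (o + 1) = (i + o) + 1 + 1 by ring, Function.iterate_succ_apply',
          Function.iterate_succ_apply', h1, Function.iterate_succ_apply', ← hy]
        simp only [Tn]; unfold C
        rw [if_neg h, if_neg h, if_pos (by omega)]
      · rw [Function.iterate_succ_apply', ← hy]
        have : 2 * Tn y = 3 * y + 1 := by simp only [Tn]; rw [if_neg h]; omega
        calc 3 ^ (o + 1) * n = 3 * (3 ^ o * n) := by rw [pow_succ]; ring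
          _ ≤ 3 * (2 ^ i * y) := Nat.mul_le_mul_left _ h2
          _ = 2 ^ i * (3 * y) := by ring
          _ ≤ 2 ^ i * (2 * Tn y) := Nat.mul_le_mul_left _ (by omega)
          _ = _ := by rw [pow_succ]; ring

theorem exists_total {n k : ℕ} (h : C^[k] n = 1) : ∃ k', k' ≤ k ∧ IsTotalStoppingTime n k' := by
  classical
  have hex : ∃ k, C^[k] n = 1 := ⟨k, h⟩
  exact ⟨Nat.find hex, Nat.find_min' hex h, Nat.find_spec hex, fun i hi => Nat.find_min hex hi⟩

theorem short_of_T {η : ℝ} (hη : 0 < η) {n i : ℕ} (hn : 1 ≤ n)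
    (hi : (i : ℝ) ≤ (2 / Real.log (4 / 3) + η / 2) * Real.log n) (h1 : Tn^[i] n = 1) :
    Short (3 / Real.log (4 / 3) + η) n := by
  obtain ⟨o, h2, h3⟩ := steps n i
  rw [h1] at h2 h3
  obtain ⟨k, hk, hk'⟩ := exists_total h2
  refine ⟨k, hk', ?_⟩
  have hnR : (1 : ℝ) ≤ n := by exact_mod_cast hn
  have hlogn : 0 ≤ Real.log n := Real.log_nonneg hnR
  have hl : Real.log (4 / 3) = 2 * Real.log 2 - Real.log 3 := by
    rw [Real.log_div (by norm_num) (by norm_num), show (4 : ℝ) = 2 ^ 2 by norm_num, Real.log_pow]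
    push_cast; ring
  have hl0 : 0 < Real.log (4 / 3) := Real.log_pos (by norm_num)
  have hl3 : 0 < Real.log 3 := Real.log_pos (by norm_num)
  have hl2 : 0 < Real.log 2 := Real.log_pos (by norm_num)
  have hl23 : Real.log 2 ≤ Real.log 3 := Real.log_le_log (by norm_num) (by norm_num)
  have h4 : (o : ℝ) * Real.log 3 + Real.log n ≤ i * Real.log 2 := by
    have h5 : (3 : ℝ) ^ o * n ≤ 2 ^ i := by
      have : 3 ^ o * n ≤ 2 ^ i := by simpa using h3
      exact_mod_cast this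
    have h6 := Real.log_le_log (by positivity) h5
    rw [Real.log_mul (by positivity) (by linarith), Real.log_pow, Real.log_pow] at h6
    exact h6
  have h5 : (k : ℝ) ≤ i + o := by exact_mod_cast hk
  -- multiply by log 3
  have h6 : ((i : ℝ) + o) * Real.log 3 ≤ i * (Real.log 2 + Real.log 3) - Real.log n := by linarith
  have h7 : (i : ℝ) * (Real.log 2 + Real.log 3)
      ≤ (2 / Real.log (4 / 3) + η / 2) * Real.log n * (Real.log 2 + Real.log 3) :=
    mul_le_mul_of_nonneg_right hi (by linarith)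
  have h8 : (2 / Real.log (4 / 3) + η / 2) * Real.log n * (Real.log 2 + Real.log 3) - Real.log n
      ≤ (3 / Real.log (4 / 3) + η) * Real.log n * Real.log 3 := by
    have e1 : 2 / Real.log (4 / 3) * (Real.log 2 + Real.log 3) - 1 = 3 / Real.log (4 / 3) * Real.log 3 := by
      have : Real.log (4 / 3) ≠ 0 := hl0.ne'
      rw [div_mul_eq_mul_div, div_mul_eq_mul_div, div_sub_one this, hl]
      congr 1; ring
    have e2 : (2 / Real.log (4 / 3) + η / 2) * Real.log n * (Real.log 2 + Real.log 3) - Real.log n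
        = (2 / Real.log (4 / 3) * (Real.log 2 + Real.log 3) - 1) * Real.log n
          + η / 2 * (Real.log 2 + Real.log 3) * Real.log n := by ring
    rw [e2, e1]
    have e3 : η / 2 * (Real.log 2 + Real.log 3) * Real.log n ≤ η * Real.log 3 * Real.log n := by
      apply mul_le_mul_of_nonneg_right _ hlogn
      nlinarith
    linarith
  have h9 : ((i : ℝ) + o) * Real.log 3 ≤ (3 / Real.log (4 / 3) + η) * Real.log n * Real.log 3 := by linarith
  have h10 := le_of_mul_le_mul_right h9 hl3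
  linarith

/-- THE RESULT -/
theorem result : ∃ δ : ℝ, 0 < δ ∧ HasDensity (fun n => ∃ k, IsTotalStoppingTime n k) δ ∧
    ∀ η : ℝ, 0 < η →
      (∃ c : ℝ, 0 < c ∧ ∀ ε : ℝ, 0 < ε → ∃ N₀ : ℕ, ∀ N : ℕ, N₀ ≤ N → ∀ j m a : ℕ,
        (2 ^ j * 3 ^ m : ℝ) ≤ (N : ℝ) ^ c →
          |(count (fun n => ∃ k, IsTotalStoppingTime n k) N (2 ^ j * 3 ^ m) a : ℝ)
              - δ * (N / (2 ^ j * 3 ^ m))| ≤ ε * (N / (2 ^ j * 3 ^ m)) ∧
          |(count (Short (3 / Real.log (4 / 3) + η)) N (2 ^ j * 3 ^ m) a : ℝ)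
              - δ * (N / (2 ^ j * 3 ^ m))| ≤ ε * (N / (2 ^ j * 3 ^ m))) ∧
      ∃ A : ℕ, ∀ j m a : ℕ, ∃ n : ℕ, 1 ≤ n ∧ n ≤ A * (2 ^ j * 3 ^ m) ^ A ∧
        n ≡ a [MOD 2 ^ j * 3 ^ m] ∧ Short (3 / Real.log (4 / 3) + η) n := by
  have hPiff : ∀ n : ℕ, (∃ k, IsTotalStoppingTime n k) ↔ ∃ k, C^[k] n = 1 := by
    intro n
    constructor
    · rintro ⟨k, hk⟩; exact ⟨k, hk.1⟩
    · rintro ⟨k, hk⟩
      obtain ⟨k', _, hk'⟩ := exists_total hk
      exact ⟨k', hk'⟩
  obtain ⟨δ, hδ, hδ1, hdens, hlev⟩ := level_nat (P := fun n => ∃ k, IsTotalStoppingTime n k)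
    (F := fun n => n = 1)
    (by intro n hn; rw [hPiff, hPiff]; exact reach_iff n hn)
    (by intro n hn h; rw [hPiff] at h; obtain ⟨k, hk⟩ := h; exact reach_T k n hn hk)
    (n0 := 1) le_rfl ⟨0, rfl, fun i hi => absurd hi (Nat.not_lt_zero i)⟩
  refine ⟨δ, hδ, hdens, ?_⟩
  intro η hη
  have hmain : ∃ c : ℝ, 0 < c ∧ ∀ ε : ℝ, 0 < ε → ∃ N₀ : ℕ, ∀ N : ℕ, N₀ ≤ N → ∀ j m a : ℕ,
        (2 ^ j * 3 ^ m : ℝ) ≤ (N : ℝ) ^ c →
          |(count (fun n => ∃ k, IsTotalStoppingTime n k) N (2 ^ j * 3 ^ m) a : ℝ)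
              - δ * (N / (2 ^ j * 3 ^ m))| ≤ ε * (N / (2 ^ j * 3 ^ m)) ∧
          |(count (Short (3 / Real.log (4 / 3) + η)) N (2 ^ j * 3 ^ m) a : ℝ)
              - δ * (N / (2 ^ j * 3 ^ m))| ≤ ε * (N / (2 ^ j * 3 ^ m)) := by
    obtain ⟨c, hc, h⟩ := hlev (η / 2) (by positivity)
    refine ⟨c, hc, fun ε hε => ?_⟩
    obtain ⟨N0, hN0⟩ := h ε hε
    refine ⟨N0, fun N hN j m a hjm => ?_⟩
    obtain ⟨h1, h2⟩ := hN0 N hN j m a hjm
    refine ⟨h1, ?_⟩
    have hfin : ∀ Q : ℕ → Prop, {n : ℕ | 1 ≤ n ∧ n ≤ N ∧ n ≡ a [MOD 2 ^ j * 3 ^ m] ∧ Q n}.Finite := by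
      intro Q
      exact (Set.finite_Iic N).subset fun n hn => hn.2.1
    have h3 : {n : ℕ | 1 ≤ n ∧ n ≤ N ∧ n ≡ a [MOD 2 ^ j * 3 ^ m] ∧ (∃ k, IsTotalStoppingTime n k) ∧
            ∃ i : ℕ, (i : ℝ) ≤ (2 / Real.log (4 / 3) + η / 2) * Real.log n ∧ Tn^[i] n = 1}.ncard
        ≤ count (Short (3 / Real.log (4 / 3) + η)) N (2 ^ j * 3 ^ m) a := by
      apply Set.ncard_le_ncard _ (hfin _)
      rintro n ⟨g1, g2, g3, g4, i, hi, hi1⟩
      exact ⟨g1, g2, g3, short_of_T hη g1 hi hi1⟩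
    have h4 : count (Short (3 / Real.log (4 / 3) + η)) N (2 ^ j * 3 ^ m) a
        ≤ count (fun n => ∃ k, IsTotalStoppingTime n k) N (2 ^ j * 3 ^ m) a := by
      apply Set.ncard_le_ncard _ (hfin _)
      rintro n ⟨g1, g2, g3, k, hk, _⟩
      exact ⟨g1, g2, g3, k, hk⟩
    have h3' : ({n : ℕ | 1 ≤ n ∧ n ≤ N ∧ n ≡ a [MOD 2 ^ j * 3 ^ m] ∧ (∃ k, IsTotalStoppingTime n k) ∧
            ∃ i : ℕ, (i : ℝ) ≤ (2 / Real.log (4 / 3) + η / 2) * Real.log n ∧ Tn^[i] n = 1}.ncard : ℝ)
        ≤ count (Short (3 / Real.log (4 / 3) + η)) N (2 ^ j * 3 ^ m) a := by exact_mod_cast h3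
    have h4' : (count (Short (3 / Real.log (4 / 3) + η)) N (2 ^ j * 3 ^ m) a : ℝ)
        ≤ count (fun n => ∃ k, IsTotalStoppingTime n k) N (2 ^ j * 3 ^ m) a := by exact_mod_cast h4
    have h1' : |(count (fun n => ∃ k, IsTotalStoppingTime n k) N (2 ^ j * 3 ^ m) a : ℝ)
              - δ * (N / (2 ^ j * 3 ^ m))| ≤ ε * (N / (2 ^ j * 3 ^ m)) := h1
    rw [abs_le] at h1' h2 ⊢
    constructor
    · linarith [h2.1]
    · linarith [h1'.2]
  refine ⟨hmain, ?_⟩
  obtain ⟨c, hc, h⟩ := hmain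
  obtain ⟨N₀, hN₀⟩ := h (δ / 2) (by positivity)
  obtain ⟨r, hr⟩ := exists_nat_ge (1 / c)
  refine ⟨max (N₀ + 1) r, fun j m a => ?_⟩
  set A := max (N₀ + 1) r with hA
  set q : ℕ := 2 ^ j * 3 ^ m with hq
  have hq1 : 1 ≤ q := Nat.one_le_iff_ne_zero.2 (by positivity)
  have hAN : N₀ + 1 ≤ A := le_max_left _ _
  have hAr : r ≤ A := le_max_right _ _
  set N : ℕ := A * q ^ A with hN
  have hqA : 1 ≤ q ^ A := Nat.one_le_pow _ _ hq1
  have hN1 : A ≤ N := Nat.le_mul_of_pos_right _ (by omega)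
  have hN0 : N₀ ≤ N := by omega
  have hNpos : 1 ≤ N := by omega
  have hqR : (1 : ℝ) ≤ q := by exact_mod_cast hq1
  have hNR : (1 : ℝ) ≤ N := by exact_mod_cast hNpos
  have hqN : (2 ^ j * 3 ^ m : ℝ) ≤ (N : ℝ) ^ c := by
    have h1 : (q : ℝ) ^ (1 / c) ≤ N := by
      have h2 : (q : ℝ) ^ (1 / c) ≤ (q : ℝ) ^ (A : ℝ) := by
        apply Real.rpow_le_rpow_of_exponent_le hqR
        refine hr.trans ?_
        exact_mod_cast hAr
      rw [Real.rpow_natCast] at h2
      refine h2.trans ?_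
      have h3 : q ^ A ≤ N := Nat.le_mul_of_pos_left _ (by omega)
      exact_mod_cast h3
    have h2 : ((q : ℝ) ^ (1 / c)) ^ c ≤ (N : ℝ) ^ c := Real.rpow_le_rpow (by positivity) h1 hc.le
    rw [← Real.rpow_mul (by positivity), one_div, inv_mul_cancel₀ hc.ne', Real.rpow_one] at h2
    have h3 : (q : ℝ) = 2 ^ j * 3 ^ m := by rw [hq]; push_cast; ring
    rw [← h3]; exact h2
  obtain ⟨_, h2⟩ := hN₀ N hN0 j m a hqN
  have hpos : 0 < count (Short (3 / Real.log (4 / 3) + η)) N q a := by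
    have hY : (0 : ℝ) < N / (2 ^ j * 3 ^ m) := by positivity
    rw [abs_le] at h2
    have h3 : 0 < δ / 2 * (N / (2 ^ j * 3 ^ m) : ℝ) := by positivity
    have h4 : (0 : ℝ) < count (Short (3 / Real.log (4 / 3) + η)) N q a := by linarith [h2.1]
    exact_mod_cast h4
  unfold count at hpos
  have hne : {n : ℕ | 1 ≤ n ∧ n ≤ N ∧ n ≡ a [MOD q] ∧ Short (3 / Real.log (4 / 3) + η) n}.Nonempty := by
    rw [Set.nonempty_iff_ne_empty]
    intro h0
    rw [h0, Set.ncard_empty] at hpos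
    exact lt_irrefl _ hpos
  obtain ⟨n, g1, g2, g3, g4⟩ := hne
  exact ⟨n, g1, g2, g3, g4⟩

end Pool.Agent.Results.MP_e43fce_nt.LevelOfDistribution
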