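import Pool.Agent.H422R2.QA.QALDC

set_option autoImplicit false

/-! Collatz total stopping times: `67 log n ≤ l(n) < ∞` for infinitely many `n`, with the large
deviation count of the integers with `l(n)` close to `c log n`. -/

namespace Pool.Agent.Results.MP_e43fce_nt.LongTimes

open Filter Pool.Agent.H422R2.QA

/-- the Collatz map -/
def C (n : ℕ) : ℕ := if n % 2 = 0 then n / 2 else 3 * n + 1

theorem C_eq : C = CN 3 := rfl

/-- from the integers to the natural numbers -/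
theorem to_nat (X : ℝ) (P : ℝ → ℕ → Prop) :
    {m : ℤ | |(m : ℝ)| ≤ X ∧ 0 < m * 1 ∧ ¬ ((3 : ℕ) : ℤ) ∣ m ∧ ∃ k : ℕ, (CZ 3)^[k] m = 1 ∧
      (∀ j < k, (CZ 3)^[j] m ≠ 1) ∧ P |(m : ℝ)| k}.ncard ≤
    {n : ℕ | 1 ≤ n ∧ (n : ℝ) ≤ X ∧ ∃ k : ℕ, C^[k] n = 1 ∧ (∀ j < k, C^[j] n ≠ 1) ∧
      P (n : ℝ) k}.ncard := by
  have hfin : {n : ℕ | 1 ≤ n ∧ (n : ℝ) ≤ X ∧ ∃ k : ℕ, C^[k] n = 1 ∧ (∀ j < k, C^[j] n ≠ 1) ∧
      P (n : ℝ) k}.Finite := by
    apply Set.Finite.subset (Set.finite_le_nat ⌈X⌉₊)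
    rintro n ⟨-, hn, -⟩
    exact_mod_cast hn.trans (Nat.le_ceil X)
  apply Set.ncard_le_ncard_of_injOn Int.toNat _ _ hfin
  · rintro m ⟨h1, h2, -, k, hk1, hk2, hk3⟩
    have hm : 0 < m := by linarith
    obtain ⟨n, rfl⟩ := Int.eq_ofNat_of_zero_le hm.le
    have hn : 0 < n := by exact_mod_cast hm
    simp only [Int.cast_natCast, Nat.abs_cast] at h1 hk3
    rw [Int.toNat_natCast]
    refine ⟨hn, h1, k, ?_, ?_, hk3⟩
    · rw [App.CZ_iter_cast] at hk1
      exact_mod_cast hk1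
    · intro j hj h
      apply hk2 j hj
      rw [App.CZ_iter_cast]
      rw [C_eq] at h
      exact_mod_cast h
  · rintro m ⟨-, h2, -⟩ m' ⟨-, h2', -⟩ h
    have h1 : 0 < m := by linarith
    have h1' : 0 < m' := by linarith
    omega

theorem general (a : ℝ) (ha : 1 < a)
    (h1 : Real.log 3 < a * Real.log a - (a - 1) * Real.log (a - 1))
    (h2 : Real.log 3 < a * Real.log 2) (ε : ℝ) (hε : 0 < ε) :
    ∀ᶠ X : ℝ in atTop,
      X ^ ((a * Real.log a - (a - 1) * Real.log (a - 1) - Real.log 3) /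
        (a * Real.log 2 - Real.log 3) - ε) ≤
      ({n : ℕ | 1 ≤ n ∧ (n : ℝ) ≤ X ∧ ∃ k : ℕ, C^[k] n = 1 ∧ (∀ j < k, C^[j] n ≠ 1) ∧
        |(k : ℝ) - (a + 1) / (a * Real.log 2 - Real.log 3) * Real.log n| ≤
          ε * Real.log n}.ncard : ℝ) := by
  obtain ⟨X₀, hX⟩ := App.LDC (q := 3) (Or.inl rfl) (r := 1) (by norm_num) ha
    (by unfold App.Ga; push_cast; linarith) (by push_cast; exact h2) hε
  filter_upwards [eventually_ge_atTop X₀] with X hX0
  have h := hX X hX0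
  unfold App.Ga at h
  push_cast at h
  refine h.trans ?_
  exact_mod_cast to_nat X (fun y k => |(k : ℝ) - (a + 1) / (a * Real.log 2 - Real.log 3) *
    Real.log y| ≤ ε * Real.log y)

theorem log_three_gt : (1.0986122 : ℝ) < Real.log 3 := by
  have h : (2 : ℕ) ^ 50508 < 3 ^ 31867 := by decide +kernel
  have h1 : (2 : ℝ) ^ 50508 < 3 ^ 31867 := by exact_mod_cast h
  have h2 := Real.log_lt_log (by positivity) h1
  rw [Real.log_pow, Real.log_pow] at h2
  have h3 := Real.log_two_gt_d9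
  push_cast at h2
  linarith

theorem D_pos : 1086 * Real.log 3 < 1783 * Real.log 2 := by
  have h : (3 : ℕ) ^ 1086 < 2 ^ 1783 := by decide +kernel
  have h1 : (3 : ℝ) ^ 1086 < 2 ^ 1783 := by exact_mod_cast h
  have h2 := Real.log_lt_log (by positivity) h1
  rw [Real.log_pow, Real.log_pow] at h2
  push_cast at h2
  exact h2

theorem G_ge : 0.0099 + 697 * Real.log 697 + 1086 * Real.log 1086 + 1086 * Real.log 3 ≤
    1783 * Real.log 1783 := by
  have h : (101 * (697 ^ 697 * (1086 ^ 1086 * 3 ^ 1086)) : ℕ) < 100 * 1783 ^ 1783 := by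
    decide +kernel
  have h1 : (101 * (697 ^ 697 * (1086 ^ 1086 * 3 ^ 1086)) : ℝ) < 100 * 1783 ^ 1783 := by
    exact_mod_cast h
  have h2 := Real.log_lt_log (by positivity) h1
  rw [Real.log_mul (by positivity) (by positivity), Real.log_mul (by positivity) (by positivity),
    Real.log_mul (by positivity) (by positivity), Real.log_mul (by positivity) (by positivity),
    Real.log_pow, Real.log_pow, Real.log_pow, Real.log_pow] at h2
  push_cast at h2
  have h3 : Real.log (101 / 100) = Real.log 101 - Real.log 100 :=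
    Real.log_div (by norm_num) (by norm_num)
  have h4 := Real.one_sub_inv_le_log_of_pos (show (0 : ℝ) < 101 / 100 by norm_num)
  norm_num at h4
  linarith

/-- (1) For every `a > 1` with `h(a) := a log a - (a-1) log (a-1) > log 3` and `a log 2 > log 3`,
the number of `n ≤ X` whose Collatz orbit reaches `1` for the first time after
`k = ((a+1)/(a log 2 - log 3) ± ε) log n` steps is at least
`X ^ ((h(a) - log 3)/(a log 2 - log 3) - ε)` for all large `X`.
(2) For all large `X` at least `X ^ (1/5000)` integers `n ≤ X` satisfy `67 log n ≤ l(n) < ∞`. -/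
theorem result :
    (∀ a : ℝ, 1 < a → Real.log 3 < a * Real.log a - (a - 1) * Real.log (a - 1) →
      Real.log 3 < a * Real.log 2 → ∀ ε : ℝ, 0 < ε → ∀ᶠ X : ℝ in atTop,
        X ^ ((a * Real.log a - (a - 1) * Real.log (a - 1) - Real.log 3) /
          (a * Real.log 2 - Real.log 3) - ε) ≤
        ({n : ℕ | 1 ≤ n ∧ (n : ℝ) ≤ X ∧ ∃ k : ℕ, C^[k] n = 1 ∧ (∀ j < k, C^[j] n ≠ 1) ∧
          |(k : ℝ) - (a + 1) / (a * Real.log 2 - Real.log 3) * Real.log n| ≤
            ε * Real.log n}.ncard : ℝ)) ∧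
    (∀ᶠ X : ℝ in atTop, X ^ (1 / 5000 : ℝ) ≤
        ({n : ℕ | 1 ≤ n ∧ (n : ℝ) ≤ X ∧ ∃ k : ℕ, C^[k] n = 1 ∧ (∀ j < k, C^[j] n ≠ 1) ∧
          67 * Real.log n ≤ k}.ncard : ℝ)) := by
  refine ⟨general, ?_⟩
  set a : ℝ := 1783 / 1086 with ha
  have hl2 := Real.log_two_lt_d9
  have hl3 := log_three_gt
  have hD := D_pos
  have hG := G_ge
  have e1 : a - 1 = 697 / 1086 := by rw [ha]; norm_num
  have e2 : a * Real.log a - (a - 1) * Real.log (a - 1) =
      (1783 * Real.log 1783 - 697 * Real.log 697 - 1086 * Real.log 1086) / 1086 := by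
    rw [e1, ha, Real.log_div (by norm_num) (by norm_num), Real.log_div (by norm_num) (by norm_num)]
    ring
  have e3 : a * Real.log 2 - Real.log 3 = (1783 * Real.log 2 - 1086 * Real.log 3) / 1086 := by
    rw [ha]; ring
  have hD0 : 0 < a * Real.log 2 - Real.log 3 := by
    rw [e3]; apply div_pos _ (by norm_num); linarith
  have hDu : a * Real.log 2 - Real.log 3 ≤ 42.789 / 1086 := by
    rw [e3]; apply div_le_div_of_nonneg_right _ (by norm_num); linarith
  have hGl : 0.0099 / 1086 ≤ a * Real.log a - (a - 1) * Real.log (a - 1) - Real.log 3 := by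
    rw [e2]; linarith
  have hG0 : 0 < a * Real.log a - (a - 1) * Real.log (a - 1) - Real.log 3 :=
    lt_of_lt_of_le (by norm_num) hGl
  have h := general a (by rw [ha]; norm_num) (sub_pos.1 hG0) (sub_pos.1 hD0) (3 / 100000)
    (by norm_num)
  filter_upwards [h, eventually_ge_atTop 1] with X hX hX1
  have hb : (1 / 5000 : ℝ) ≤ (a * Real.log a - (a - 1) * Real.log (a - 1) - Real.log 3) /
        (a * Real.log 2 - Real.log 3) - 3 / 100000 := by
    have : (23 / 100000 : ℝ) ≤ (a * Real.log a - (a - 1) * Real.log (a - 1) - Real.log 3) /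
        (a * Real.log 2 - Real.log 3) := by
      rw [le_div_iff₀ hD0]
      linarith
    linarith
  refine (Real.rpow_le_rpow_of_exponent_le hX1 hb).trans (hX.trans ?_)
  have hfin : {n : ℕ | 1 ≤ n ∧ (n : ℝ) ≤ X ∧ ∃ k : ℕ, C^[k] n = 1 ∧ (∀ j < k, C^[j] n ≠ 1) ∧
      67 * Real.log n ≤ k}.Finite := by
    apply Set.Finite.subset (Set.finite_le_nat ⌈X⌉₊)
    rintro n ⟨-, hn, -⟩
    exact_mod_cast hn.trans (Nat.le_ceil X)
  have hsub : {n : ℕ | 1 ≤ n ∧ (n : ℝ) ≤ X ∧ ∃ k : ℕ, C^[k] n = 1 ∧ (∀ j < k, C^[j] n ≠ 1) ∧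
          |(k : ℝ) - (a + 1) / (a * Real.log 2 - Real.log 3) * Real.log n| ≤
            3 / 100000 * Real.log n} ⊆
      {n : ℕ | 1 ≤ n ∧ (n : ℝ) ≤ X ∧ ∃ k : ℕ, C^[k] n = 1 ∧ (∀ j < k, C^[j] n ≠ 1) ∧
      67 * Real.log n ≤ k} := by
    rintro n ⟨h1, h2, k, h3, h4, h5⟩
    refine ⟨h1, h2, k, h3, h4, ?_⟩
    have hlog : 0 ≤ Real.log (n : ℝ) := Real.log_natCast_nonneg n
    have h6 : (67 + 3 / 100000 : ℝ) ≤ (a + 1) / (a * Real.log 2 - Real.log 3) := by
      rw [le_div_iff₀ hD0]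
      have : (a + 1) = 2869 / 1086 := by rw [ha]; norm_num
      rw [this]
      linarith
    have h7 := mul_le_mul_of_nonneg_right h6 hlog
    have h8 := (abs_le.1 h5).1
    linarith
  exact_mod_cast Set.ncard_le_ncard hsub hfin

end Pool.Agent.Results.MP_e43fce_nt.LongTimes
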