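import Mathlib
import Pool.Agent.H499R2.LT.R6

set_option autoImplicit false

/-! The law of the total stopping time of the Collatz function. -/

namespace Pool.Agent.Results.MP_e43fce_nt.NormalLaw

open Filter Topology

/-- the Collatz function -/
def C (n : ℕ) : ℕ := if n % 2 = 0 then n / 2 else 3 * n + 1

/-- `l` is the total stopping time `l(n)` of `n` -/
def IsTotalStoppingTime (n l : ℕ) : Prop := C^[l] n = 1 ∧ ∀ j < l, C^[j] n ≠ 1

/-- the number of odd terms among `n, C n, ..., C^(k-1) n` -/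
def odds (k n : ℕ) : ℕ := ((Finset.range k).filter fun i => C^[i] n % 2 = 1).card

/-- the positive integers with the property `P` have the natural density `δ` -/
def HasDensity (P : ℕ → Prop) (δ : ℝ) : Prop :=
  Tendsto (fun N : ℕ => ({n : ℕ | 1 ≤ n ∧ n ≤ N ∧ P n}.ncard : ℝ) / N) atTop (𝓝 δ)

/-- `3 / log (4/3) * log n + x * log 6 * √(2 log n / (log (4/3))^3)` -/
noncomputable def bound (x : ℝ) (n : ℕ) : ℝ :=
  3 / Real.log (4 / 3) * Real.log n
    + x * (Real.log 6 * Real.sqrt (2 * Real.log n / Real.log (4 / 3) ^ 3))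

/-- The distribution function of the standard normal law. -/
noncomputable def Phi (x : ℝ) : ℝ :=
  ProbabilityTheory.cdf (ProbabilityTheory.gaussianReal 0 1) x

/-- THE LAW OF THE TOTAL STOPPING TIME. The integers `n` with finite `l(n)` have a positive natural
density `δ`, equal to `1` iff all are of this kind. For `m ≥ 1`, all `a`, `b` and every real `x`, the
`n` with `l(n) ≤ bound x n`, `l(n) ≡ a` and number of odd terms before reaching `1` `≡ b` modulo `m`
have natural density `δ * Phi x / m ^ 2`. -/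
theorem result : ∃ δ : ℝ, 0 < δ ∧ δ ≤ 1 ∧ (δ = 1 ↔ ∀ n : ℕ, 1 ≤ n → ∃ k, C^[k] n = 1) ∧
    HasDensity (fun n => ∃ k, C^[k] n = 1) δ ∧
    ∀ (m : ℕ) (a b : ℤ), 1 ≤ m →
      ∀ x : ℝ, HasDensity (fun n => ∃ l : ℕ, (l : ℝ) ≤ bound x n ∧ IsTotalStoppingTime n l ∧
        (l : ℤ) ≡ a [ZMOD m] ∧ (odds l n : ℤ) ≡ b [ZMOD m]) (δ * Phi x / m ^ 2) :=
  Pool.Agent.H499R2.LT.law_oneC

end Pool.Agent.Results.MP_e43fce_nt.NormalLaw
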