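import Mathlib
import Pool.Agent.H499R2.CO.R6

set_option autoImplicit false

/-! Runs of consecutive integers of equal total stopping time under the Collatz function. -/

namespace Pool.Agent.Results.MP_e43fce_nt.Runs

open Filter Topology

/-- the Collatz function -/
def C (n : ℕ) : ℕ := if n % 2 = 0 then n / 2 else 3 * n + 1

/-- the total stopping time `l(n)`, the least `k ≥ 0` with `C^k(n) = 1`, and `⊤ = ∞` if there is none -/
noncomputable def l (n : ℕ) : ℕ∞ := sInf {k : ℕ∞ | ∃ j : ℕ, C^[j] n = 1 ∧ k = j}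

/-- the positive integers with the property `P` have the natural density `δ` -/
def HasDensity (P : ℕ → Prop) (δ : ℝ) : Prop :=
  Tendsto (fun N : ℕ => ({n : ℕ | 1 ≤ n ∧ n ≤ N ∧ P n}.ncard : ℝ) / N) atTop (𝓝 δ)

theorem le_two_mul (n : ℕ) : n ≤ 2 * C n := by
  unfold C
  split_ifs <;> omega

theorem le_pow (k : ℕ) : ∀ n : ℕ, n ≤ 2 ^ k * C^[k] n := by
  induction k with
  | zero => intro n; simp
  | succ k ih =>
    intro n
    rw [Function.iterate_succ_apply, pow_succ]
    have h1 := le_two_mul n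
    have h2 := ih (C n)
    nlinarith

/-- the times at which `1` is visited agree -/
theorem visits {t n m : ℕ} (ht : 2 ^ t ≤ n) (hn : n ≤ m) (h : C^[t] m = C^[t] n) (k : ℕ) :
    C^[k] m = 1 ↔ C^[k] n = 1 := by
  have hlt : ∀ x : ℕ, n ≤ x → k < t → C^[k] x ≠ 1 := by
    intro x hx hk h1
    have h2 := le_pow k x
    rw [h1, mul_one] at h2
    have h3 : 2 ^ k < 2 ^ t := Nat.pow_lt_pow_right (by norm_num) hk
    omega
  rcases Nat.lt_or_ge k t with h5 | h5
  · exact ⟨fun h6 => absurd h6 (hlt m hn h5), fun h6 => absurd h6 (hlt n le_rfl h5)⟩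
  · obtain ⟨j, rfl⟩ := Nat.exists_eq_add_of_le h5
    rw [Nat.add_comm, Function.iterate_add_apply, Function.iterate_add_apply, h]

/-- RUNS OF EQUAL TOTAL STOPPING TIME. Let `g n = o(√(log n) / log log n)`. For almost all `n`, in the
sense of natural density, the integers `n, n + 1, ..., n + g(n)` all have the same total stopping time
(finite or infinite). -/
theorem result (g : ℕ → ℕ)
    (hg : Tendsto (fun n : ℕ => (g n : ℝ) * Real.log (Real.log n) / √ (Real.log n)) atTop (𝓝 0)) :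
    HasDensity (fun n => ∀ h ≤ g n, l (n + h) = l n) 1 := by
  classical
  have h1 : Pool.Agent.H499R2.CO.HD (fun n => ∃ t, 2 ^ t ≤ n ∧ ∀ h ≤ g n, C^[t] (n + h) = C^[t] n) 1 :=
    Pool.Agent.H499R2.CO.HD_iff.2 (Pool.Agent.H499R2.CO.run_C hg)
  refine Pool.Agent.H499R2.CO.HD_congr h1 h1 fun n _ hE => ⟨fun _ => ?_, fun _ => hE⟩
  obtain ⟨t, ht, hh⟩ := hE
  intro h hgh
  unfold l
  congr 1
  ext k
  constructor
  · rintro ⟨j, hj, rfl⟩
    exact ⟨j, (visits ht (Nat.le_add_right _ _) (hh h hgh) j).1 hj, rfl⟩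
  · rintro ⟨j, hj, rfl⟩
    exact ⟨j, (visits ht (Nat.le_add_right _ _) (hh h hgh) j).2 hj, rfl⟩

end Pool.Agent.Results.MP_e43fce_nt.Runs
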